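import Pool.Agent.W988.LD.Sharp

/-! Low-degree hardness of refuting `k`-colourability close to the square root. -/

set_option autoImplicit false

namespace Pool.Agent.Results.MP_91303d_lc.NearSquareRoot

open Filter

open Classical in
/-- the value at the graph `G` of the real polynomial `p`, whose variables are the unordered pairs
of vertices: the variable of a pair is `1` if the pair is an edge of `G` and `0` otherwise -/
noncomputable def val {n : ℕ} (p : MvPolynomial (Sym2 (Fin n)) ℝ) (G : SimpleGraph (Fin n)) : ℝ :=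
  MvPolynomial.eval (fun e => if e ∈ G.edgeSet then 1 else 0) p

/-- the expectation over the uniformly random graph on `n` labelled vertices, `G(n, 1/2)` -/
noncomputable def mean {n : ℕ} (F : SimpleGraph (Fin n) → ℝ) : ℝ :=
  (∑ G, F G) / Fintype.card (SimpleGraph (Fin n))

/-- `Quiet n k D η`: there is a probability distribution on the `k`-colourable graphs such that for
every polynomial `p` of degree at most `D` the mean of `p` under it differs from the mean of `p`
over the uniformly random graph by at most `√η` standard deviations of `p` -/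
def Quiet (n k D : ℕ) (η : ℝ) : Prop :=
  ∃ μ : SimpleGraph (Fin n) → ℝ, (∀ G, 0 ≤ μ G) ∧ ∑ G, μ G = 1 ∧
    (∀ G, μ G ≠ 0 → G.Colorable k) ∧
    ∀ p : MvPolynomial (Sym2 (Fin n)) ℝ, p.totalDegree ≤ D →
      (∑ G, μ G * val p G - mean (val p)) ^ 2 ≤
        η * (mean (fun G => val p G ^ 2) - mean (val p) ^ 2)

/-- `k(n)`-colourability of `G(n, 1/2)` can be refuted by polynomials of degree at most `D(n)` -/
def Refutable (k D : ℕ → ℕ) : Prop :=
  ∃ f : (n : ℕ) → MvPolynomial (Sym2 (Fin n)) ℝ,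
    (∀ᶠ n in atTop, (f n).totalDegree ≤ D n ∧
      (∀ G : SimpleGraph (Fin n), G.Colorable (k n) → 1 ≤ val (f n) G) ∧ mean (val (f n)) = 0) ∧
    Tendsto (fun n => mean (fun G => val (f n) G ^ 2)) atTop (nhds 0)

open W988.LD

lemma quiet_moment {n k D : ℕ} {η : ℝ} (hq : Quiet n k D η) (hη1 : η ≤ 1)
    {p : MvPolynomial (Sym2 (Fin n)) ℝ} (hp : p.totalDegree ≤ D)
    (hp1 : ∀ G : SimpleGraph (Fin n), G.Colorable k → 1 ≤ val p G) (hp0 : mean (val p) = 0) :
    1 ≤ mean (fun G => val p G ^ 2) := by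
  obtain ⟨μ, hμ0, hμ1, hμc, hμp⟩ := hq
  have h1 := hμp p hp
  rw [hp0] at h1
  have h2 : (1 : ℝ) ≤ ∑ G, μ G * val p G := by
    calc (1 : ℝ) = ∑ G, μ G * 1 := by simp only [mul_one, hμ1]
      _ ≤ _ := by
          refine Finset.sum_le_sum fun G _ => ?_
          by_cases hG : μ G = 0
          · rw [hG, zero_mul, zero_mul]
          · exact mul_le_mul_of_nonneg_left (hp1 G (hμc G hG)) (hμ0 G)
  have h3 : 0 ≤ mean (fun G => val p G ^ 2) := by
    unfold mean
    exact div_nonneg (Finset.sum_nonneg fun _ _ => sq_nonneg _) (Nat.cast_nonneg _)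
  have h4 : η * (mean (fun G => val p G ^ 2) - 0 ^ 2) ≤ 1 * mean (fun G => val p G ^ 2) := by
    rw [zero_pow two_ne_zero, sub_zero]
    exact mul_le_mul_of_nonneg_right hη1 h3
  nlinarith

lemma quiet_all : ∃ n₀ : ℕ, ∀ n ≥ n₀, ∀ k D : ℕ,
    √n * Real.exp (32 * √(D + Real.log n)) ≤ k → Quiet n k D (√n / k) := by
  obtain ⟨n₁, h₁⟩ := sharp
  refine ⟨max n₁ 1, fun n hn k D h => ?_⟩
  have hn1 : 1 ≤ n := by omega
  have hnpos : (0 : ℝ) < n := by exact_mod_cast hn1
  have hsn : 0 < √(n : ℝ) := Real.sqrt_pos.2 hnpos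
  have hkpos : (0 : ℝ) < k := lt_of_lt_of_le (by positivity) h
  have hL0 : 0 ≤ Real.log n := Real.log_natCast_nonneg n
  have hD0 : (0 : ℝ) ≤ D := Nat.cast_nonneg D
  have h14 : √(n : ℝ) * Real.exp (14 * √(Real.log n)) ≤ k := by
    refine le_trans ?_ h
    refine mul_le_mul_of_nonneg_left ?_ hsn.le
    rw [Real.exp_le_exp]
    have h2 : √(Real.log n) ≤ √(D + Real.log n) := Real.sqrt_le_sqrt (by linarith)
    have h3 : 0 ≤ √(Real.log n) := Real.sqrt_nonneg _
    linarith
  have hD : 1024 * (D : ℝ) ≤ Real.log (k / √(n : ℝ)) ^ 2 := by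
    have h2 : 32 * √(D + Real.log n) ≤ Real.log (k / √(n : ℝ)) := by
      rw [Real.le_log_iff_exp_le (by positivity), le_div_iff₀ hsn, mul_comm]
      exact h
    have h3 : (32 * √(D + Real.log n)) ^ 2 ≤ Real.log (k / √(n : ℝ)) ^ 2 :=
      pow_le_pow_left₀ (by positivity) h2 2
    rw [mul_pow, Real.sq_sqrt (by linarith)] at h3
    linarith
  obtain ⟨μ, hμ0, hμ1, hμc, hμp⟩ := h₁ n (by omega) k D h14 hD
  exact ⟨μ, hμ0, hμ1, hμc, fun p hp => hμp p hp⟩

/-- **Refuting `k`-colourability close to the square root.** For all large `n` and all `k`, `D`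
with `k ≥ √n exp(32 √(D + log n))` there is a distribution on the `k`-colourable graphs that no
polynomial of degree at most `D` distinguishes from the random graph, with squared advantage at
most `√n/k`. Hence for every `k = k(n)` with `log(k/√n)/√(log n) → ∞`, that is
`k ≥ √n exp(ω(√(log n)))`, there is `D = ω(log n)` such that `k`-colourability cannot be refuted by
polynomials of degree at most `D`. -/
theorem result :
    (∃ n₀ : ℕ, ∀ n ≥ n₀, ∀ k D : ℕ,
      √n * Real.exp (32 * √(D + Real.log n)) ≤ k → Quiet n k D (√n / k)) ∧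
    ∀ k : ℕ → ℕ,
      Tendsto (fun n : ℕ => Real.log (k n / √n) / √(Real.log n)) atTop atTop →
      ∃ D : ℕ → ℕ, Tendsto (fun n : ℕ => (D n : ℝ) / Real.log n) atTop atTop ∧
        ¬ Refutable k D := by
  refine ⟨quiet_all, fun k hk => ?_⟩
  have hlim : Tendsto (fun n : ℕ => Real.log n) atTop atTop :=
    Real.tendsto_log_atTop.comp tendsto_natCast_atTop_atTop
  refine ⟨fun n => ⌊(Real.log (k n / √n) / 32) ^ 2 - Real.log n⌋₊, ?_, ?_⟩
  · have h1 : Tendsto (fun t : ℝ => t / 1024 - 2) atTop atTop :=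
      tendsto_atTop_add_const_right _ _ (tendsto_id.atTop_div_const (by norm_num))
    refine tendsto_atTop_mono' _ ?_ (h1.comp hk)
    filter_upwards [hlim.eventually (eventually_ge_atTop (1 : ℝ)),
      hk.eventually (eventually_ge_atTop (1 : ℝ))] with n hn hn2
    have hpos : 0 < Real.log n := by linarith
    show Real.log (k n / √n) / √(Real.log n) / 1024 - 2 ≤
      (⌊(Real.log (k n / √n) / 32) ^ 2 - Real.log n⌋₊ : ℝ) / Real.log n
    rw [le_div_iff₀ hpos]
    have h2 := Nat.sub_one_lt_floor ((Real.log (k n / √n) / 32) ^ 2 - Real.log n)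
    set t : ℝ := Real.log (k n / √n) / √(Real.log n) with ht
    have hsq : √(Real.log n) ≠ 0 := (Real.sqrt_pos.2 hpos).ne'
    have h3 : Real.log (k n / √n) = t * √(Real.log n) := by
      rw [ht]
      field_simp
    have h4 : (Real.log (k n / √n) / 32) ^ 2 = t ^ 2 / 1024 * Real.log n := by
      rw [h3]
      have h5 : √(Real.log n) ^ 2 = Real.log n := Real.sq_sqrt hpos.le
      calc (t * √(Real.log n) / 32) ^ 2 = t ^ 2 / 1024 * √(Real.log n) ^ 2 := by ring
        _ = _ := by rw [h5]
    rw [h4] at h2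
    rw [h4]
    have h5 : t / 1024 * Real.log n ≤ t ^ 2 / 1024 * Real.log n := by
      refine mul_le_mul_of_nonneg_right ?_ hpos.le
      nlinarith
    have h6 : (t / 1024 - 2) * Real.log n = t / 1024 * Real.log n - 2 * Real.log n := by ring
    rw [h6]
    linarith
  · rintro ⟨f, hf, hf0⟩
    obtain ⟨n₀, h⟩ := quiet_all
    have hlt : ∀ᶠ n : ℕ in atTop, mean (fun G => val (f n) G ^ 2) < 1 :=
      hf0.eventually (gt_mem_nhds one_pos)
    obtain ⟨n, ⟨hn1, hn2⟩, ⟨hn3, hn4⟩, hn5⟩ := ((hlt.and hf).and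
      (((hlim.eventually (eventually_ge_atTop (1 : ℝ))).and
        (hk.eventually (eventually_ge_atTop (32 : ℝ)))).and
        (eventually_ge_atTop n₀))).exists
    have hLpos : 0 < Real.log n := by linarith
    have hn0 : n ≠ 0 := by
      rintro rfl
      rw [Nat.cast_zero, Real.log_zero] at hLpos
      exact lt_irrefl _ hLpos
    have hnpos : (0 : ℝ) < n := by
      have : 0 < n := Nat.pos_of_ne_zero hn0
      exact_mod_cast this
    have hsn : 0 < √(n : ℝ) := Real.sqrt_pos.2 hnpos
    set l : ℝ := Real.log (k n / √n) with hl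
    have hsl : 0 < √(Real.log n) := Real.sqrt_pos.2 hLpos
    have hll : 32 * √(Real.log n) ≤ l := by
      rwa [le_div_iff₀ hsl] at hn4
    have hlpos : 0 < l := by linarith
    have hkpos : (0 : ℝ) < k n := by
      rcases Nat.eq_zero_or_pos (k n) with h0 | h0
      · rw [h0, Nat.cast_zero, zero_div, Real.log_zero] at hl
        linarith
      · exact_mod_cast h0
    have hknl : (k n : ℝ) = √n * Real.exp l := by
      rw [hl, Real.exp_log (by positivity)]
      field_simp
    have hge : 0 ≤ (l / 32) ^ 2 - Real.log n := by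
      have h1 : (√(Real.log n)) ^ 2 ≤ (l / 32) ^ 2 :=
        pow_le_pow_left₀ hsl.le (by linarith) 2
      rw [Real.sq_sqrt hLpos.le] at h1
      linarith
    have hq := h n hn5 (k n) ⌊(l / 32) ^ 2 - Real.log n⌋₊ (by
      rw [hknl]
      refine mul_le_mul_of_nonneg_left ?_ hsn.le
      rw [Real.exp_le_exp]
      have h1 : √((⌊(l / 32) ^ 2 - Real.log n⌋₊ : ℝ) + Real.log n) ≤ l / 32 := by
        have h2 := Nat.floor_le hge
        exact Real.sqrt_le_iff.2 ⟨by positivity, by linarith⟩
      linarith)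
    have hη' : √(n : ℝ) / (k n) ≤ 1 := by
      rw [div_le_one hkpos, hknl]
      have := Real.one_le_exp hlpos.le
      nlinarith
    have h5 := quiet_moment hq hη' hn2.1 hn2.2.1 hn2.2.2
    linarith

end Pool.Agent.Results.MP_91303d_lc.NearSquareRoot
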